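import Mathlib
import Pool.Agent.V8H47.RC.Defs
import Pool.Agent.V8H47.RC.D

/-!
# The four exponentials conjecture on rational curves

Let `f_ij = P_ij / Q_ij`, `i, j = 1, 2`, be rational functions over `ℝ`, not all of them constant, and
let `w` be the number of their different complex zeros and poles (of the complex zeros of the
polynomials `P_ij` and `Q_ij`). Then the rows of the matrix of functions `(log |f_ij|)` are linearly
dependent over `ℚ`, or its columns are, or the determinant of the matrix `(log |f_ij(x)|)` is zero for
at most `88 w + 5` real numbers `x`.

So, for rational functions over `ℚ`, there are at most `88 w + 5` rational numbers `x` such that the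
matrix `(log |f_ij(x)|)` is a counterexample to the four exponentials conjecture for rational numbers:
every rational curve in the space of the matrices contains only finitely many counterexamples, and
their number is bounded in terms of `w` only; the degrees and the coefficients do not matter.

Proof. The logarithms of the `|f_ij|` are combinations of at most four functions `λ_k` which are
independent modulo constants. By residues they are even linearly independent over the field of
rational functions, and by the theorem of Rolle, applied after divisions by the coefficients, a
nonzero combination `A_0 + ∑ A_k λ_k` with polynomial coefficients has few zeros. This is applied to the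
derivative of the determinant. If this derivative vanishes identically then the matrices of the
orders of the `f_ij` at the irreducible polynomials and the matrix of the logarithms of the leading
coefficients span a space on which the determinant is zero, so all these matrices have a common left
or right kernel; since one of them is a nonzero matrix of integers, the rows or the columns of
`(log |f_ij|)` are linearly dependent over `ℚ`.
-/

set_option autoImplicit false

open Polynomial

namespace Pool.Agent.Results.MP_bbc1fa_nt.RationalCurves

open Pool.Agent.V8H47.RC (IsCounterexample width Defined DetZero)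

/-- (1) A nonconstant matrix of rational functions over `ℚ` has at most `88 w + 5` values at rational
numbers which are counterexamples to the four exponentials conjecture. (2) For a nonconstant matrix of
nonzero rational functions over `ℝ`, the rows or the columns of the matrix of the logarithms are
dependent over `ℚ`, as functions, or the determinant has at most `88 w + 5` real zeros. -/
theorem result :
    (∀ P Q : Fin 2 → Fin 2 → ℚ[X], (∃ i j, ∀ c : ℚ, P i j ≠ C c * Q i j) →
      {x : ℚ | IsCounterexample fun i j =>
        ((|(P i j).eval x / (Q i j).eval x| : ℚ) : ℝ)}.Finite ∧
      {x : ℚ | IsCounterexample fun i j =>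
        ((|(P i j).eval x / (Q i j).eval x| : ℚ) : ℝ)}.ncard ≤ 88 * width P Q + 5) ∧
    (∀ P Q : Fin 2 → Fin 2 → ℝ[X], (∀ i j, P i j ≠ 0) → (∀ i j, Q i j ≠ 0) →
      (∃ i j, ∀ c : ℝ, P i j ≠ C c * Q i j) →
      (∃ r t : ℤ, (r ≠ 0 ∨ t ≠ 0) ∧ ∀ x, Defined P Q x → ∀ j,
        r * Real.log |(P 0 j).eval x / (Q 0 j).eval x| +
        t * Real.log |(P 1 j).eval x / (Q 1 j).eval x| = 0) ∨
      (∃ r t : ℤ, (r ≠ 0 ∨ t ≠ 0) ∧ ∀ x, Defined P Q x → ∀ i,
        r * Real.log |(P i 0).eval x / (Q i 0).eval x| +
        t * Real.log |(P i 1).eval x / (Q i 1).eval x| = 0) ∨
      ({x : ℝ | Defined P Q x ∧ DetZero P Q x}.Finite ∧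
        {x : ℝ | Defined P Q x ∧ DetZero P Q x}.ncard ≤ 88 * width P Q + 5)) :=
  ⟨Pool.Agent.V8H47.RC.main_rat, Pool.Agent.V8H47.RC.tri⟩

end Pool.Agent.Results.MP_bbc1fa_nt.RationalCurves
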