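import Mathlib
import Pool.Agent.V8H74.SI.TuplesRate

/-!
# The four exponentials conjecture for rows of integers in short intervals

`IsGenericRow V y` (starting file `GenericRow`): `V' = V + ℚ y_1 + ⋯ + ℚ y_k` has dimension
`dim V + k` and every `2 × 2` matrix of logarithms of positive algebraic (for instance rational)
numbers with first row in `V'`, not in `V`, with ARBITRARY second row, with `ℚ`-linearly independent
rows and `ℚ`-linearly independent columns, has nonzero determinant.

1. Let `log x_i ≤ y_i ≤ x_i` and `h_i ≥ x_i / y_i`.  In the box `∏ (x_i, x_i + h_i]` all but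
   `C ∑ (1 + log (log x_i / log y_i)) ^ C (log y_i / log x_i) ∏ h_i` of the `k`-tuples of integers are
   generic rows over ALL the spaces `V` of an arbitrary family of at most `min y_i ^ m` spaces of
   dimension at most `m`.  The `x_i` may be of completely different sizes.  For instance, for
   intervals of length `x / (log x) ^ A` the proportion is `(log log x) ^ C / log x`.
2. For `ε > 0` there is `η > 0` such that for all large `x`, `h ≥ x ^ (1 - η)` and every set `S` of at
   most `x ^ η` positive algebraic numbers `b ≠ 1` all but `ε h` of the integers `a` in `(x, x + h]`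
   have the following property: for ALL `b` in `S` and all real `t`, if `a ^ t` and `b ^ t` are
   algebraic, then `t` is rational.

The proof.  By the grid theorem of `Pool.Agent.R350` (from the hyperplane case of the linear subgroup
theorem of Waldschmidt and Roy) the exceptional integers of a fixed space contain no multiplicative
cube `a ∏ (p_i or q_i)` of large dimension `R`.  In an interval `(x, x + h]` we look at the integers
with at least `R` prime divisors between a power of `y` and a small power of `x` and divide the range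
of the primes into cells `[c 2 ^ u, (c + 1) 2 ^ u)` of relative length `h / x`; boxes of cells without
cubes are thin by a power of `y`.  The other integers are counted by the fundamental lemma of the
sieve (Brun and Hooley, `Pool.Agent.H20R2`), averaged over the subsets of the set of primes, with the
theorem of Mertens; in (2) by Turán's variance.
-/

set_option autoImplicit false

namespace Pool.Agent.Results.MP_bbc1fa_nt.ShortIntervalRows

open Module Finset
open Pool.Agent.Results.MP_bbc1fa_nt.GenericRow (IsGenericRow)

open Classical in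
/-- **Main result.** -/
theorem result (k m : ℕ) :
    (∃ C : ℕ, ∀ x y h : Fin k → ℕ,
      (∀ i, 16 ≤ x i) → (∀ i, Real.log (x i) ≤ y i) → (∀ i, y i ≤ x i) →
      (∀ i, x i ≤ h i * y i) →
      ∀ W : Finset (Submodule ℚ ℝ), (∀ i, W.card ≤ y i ^ m) →
      (∀ V ∈ W, Module.Finite ℚ V ∧ finrank ℚ V ≤ m) →
      (((Fintype.piFinset (fun i => Ioc (x i) (x i + h i))).filter (fun a : Fin k → ℕ =>
        ∃ V ∈ W, ¬ IsGenericRow V (fun i => Real.log (a i)))).card : ℝ) ≤
        (∑ i, C * (1 + Real.log (Real.log (x i) / Real.log (y i))) ^ C *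
          (Real.log (y i) / Real.log (x i))) * ∏ i, (h i : ℝ)) ∧
    (∀ ε : ℝ, 0 < ε → ∃ η : ℝ, 0 < η ∧ ∃ x₀ : ℕ, ∀ x : ℕ, x₀ ≤ x →
      ∀ h : ℕ, (x : ℝ) ^ (1 - η) ≤ h → ∀ S : Finset ℝ, (S.card : ℝ) ≤ (x : ℝ) ^ η →
      (∀ b ∈ S, 0 < b ∧ b ≠ 1 ∧ IsAlgebraic ℚ b) →
      (((Ioc x (x + h)).filter (fun a : ℕ => ∃ b ∈ S, ∃ t : ℝ, Irrational t ∧
        IsAlgebraic ℚ ((a : ℝ) ^ t) ∧ IsAlgebraic ℚ (b ^ t))).card : ℝ) ≤ ε * h) :=
  ⟨V8H74.SI.tuples_rate k m, fun ε hε => V8H74.SI.clean ε hε⟩

end Pool.Agent.Results.MP_bbc1fa_nt.ShortIntervalRows
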