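import Mathlib
import Pool.Agent.V8H74.TP.Clean

/-!
# The four exponentials conjecture for rows `(a, b)`, almost all `a`, simultaneously for all small `b`

`IsGenericRow V y` (starting file `GenericRow`): `V' = V + ℚ y_1 + ⋯ + ℚ y_k` has dimension
`dim V + k` and every `2 × 2` matrix of logarithms of positive algebraic (for instance rational)
numbers with first row in `V'`, not in `V`, with ARBITRARY second row, with `ℚ`-linearly independent
rows and `ℚ`-linearly independent columns, has nonzero determinant.

1. For every `ε > 0` there is `δ > 0` such that for all large `x` all but `ε x` of the integers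
   `a ≤ x` have the following property: for ALL integers `b` with `2 ≤ b ≤ x ^ δ` and all real `t`,
   if `a ^ t` and `b ^ t` are algebraic, then `t` is rational.
2. Let `log x ≤ y ≤ x`.  All but `C (1 + log (log x / log y)) ^ C (log y / log x) x ^ k` of the
   `k`-tuples of integers up to `x` are generic rows over ALL the spaces `V` of an arbitrary family of
   at most `y ^ m` rational spaces of dimension at most `m`, for instance over all the spaces generated
   by the logarithms of `m` integers up to `y`.
3. All but `C (log log x) ^ C / (log x) ^ 2 x ^ k` of the `k`-tuples of integers between `2` and `x`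
   are generic rows over `0`.
4. For every `V` of dimension at most `m` at most `C (log x) ^ C z ^ (-δ) x ^ k` of the `k`-tuples of
   integers up to `x`, each of which has at least `R` prime divisors `≥ z`, are not generic over `V`.

The proof.  By the grid theorem of `Pool.Agent.R350` (from the hyperplane case of the linear subgroup
theorem of Waldschmidt and Roy) the exceptional integers for a fixed space contain no multiplicative
cube `a ∏ (p_i or q_i)` of large dimension.  A set without such cubes, all of whose elements have many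
prime divisors `≥ z`, is small by a power of `z` (boxes); this is summed over the family.  The integers
with few prime divisors `≥ z` are counted by the inequality of Hall and Tenenbaum and the theorem of
Mertens.  For (3) at most one of the integers is of this kind, unless we are in a set of the size
allowed; its logarithm is put into `V`, where a space of dimension one contains no rows.
-/

set_option autoImplicit false

namespace Pool.Agent.Results.MP_bbc1fa_nt.SimultaneousRows

open Module Finset
open Pool.Agent.Results.MP_bbc1fa_nt.GenericRow (IsGenericRow)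

open Classical in
/-- **Main result.** -/
theorem result (m k : ℕ) :
    (∀ ε : ℝ, 0 < ε → ∃ δ : ℝ, 0 < δ ∧ ∃ x₀ : ℕ, ∀ x : ℕ, x₀ ≤ x →
      (((Icc 1 x).filter (fun a : ℕ => ∃ b : ℕ, 2 ≤ b ∧ (b : ℝ) ≤ (x : ℝ) ^ δ ∧
        ∃ t : ℝ, Irrational t ∧ IsAlgebraic ℚ ((a : ℝ) ^ t) ∧
          IsAlgebraic ℚ ((b : ℝ) ^ t))).card : ℝ) ≤ ε * x) ∧
    (∃ C : ℕ, ∀ x y : ℕ, 16 ≤ x → Real.log x ≤ y → y ≤ x →
      ∀ W : Finset (Submodule ℚ ℝ), W.card ≤ y ^ m →
      (∀ V ∈ W, Module.Finite ℚ V ∧ finrank ℚ V ≤ m) →
      (((Fintype.piFinset (fun _ : Fin k => Icc 1 x)).filter (fun a =>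
        ∃ V ∈ W, ¬ IsGenericRow V (fun i => Real.log (a i)))).card : ℝ) ≤
        C * (1 + Real.log (Real.log x / Real.log y)) ^ C * (Real.log y / Real.log x) *
          (x : ℝ) ^ k) ∧
    (∃ C : ℕ, ∀ x : ℕ, 16 ≤ x →
      (((Fintype.piFinset (fun _ : Fin k => Icc 2 x)).filter (fun a =>
        ¬ IsGenericRow ⊥ (fun i => Real.log (a i)))).card : ℝ) ≤
        C * Real.log (Real.log x) ^ C / Real.log x ^ 2 * (x : ℝ) ^ k) ∧
    (∃ R C : ℕ, ∃ δ : ℝ, 0 < δ ∧ ∀ x z : ℕ, 16 ≤ x → 2 ≤ z →
      ∀ V : Submodule ℚ ℝ, Module.Finite ℚ V → finrank ℚ V ≤ m →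
      (((Fintype.piFinset (fun _ : Fin k => Icc 1 x)).filter (fun a =>
        (∀ i, R ≤ ((a i).primeFactors.filter (fun p => z ≤ p)).card) ∧
        ¬ IsGenericRow V (fun i => Real.log (a i)))).card : ℝ) ≤
        C * Real.log x ^ C * (z : ℝ) ^ (-δ) * (x : ℝ) ^ k) := by
  refine ⟨fun ε hε => V8H74.TP.clean ε hε, V8H74.TP.family k m, V8H74.TP.rate k, ?_⟩
  obtain ⟨R, C, δ, hδ, h⟩ := V8H74.TP.power k m
  refine ⟨R, C, δ, hδ, fun x z hx hz V hVf hVm => ?_⟩
  exact h x z hx hz V hVf hVm _ (Finset.filter_subset _ _)
    (fun a ha => (Finset.mem_filter.1 ha).2.1) (fun a ha => (Finset.mem_filter.1 ha).2.2)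

end Pool.Agent.Results.MP_bbc1fa_nt.SimultaneousRows
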