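import Pool.Agent.V8H74.FE.Rat
import Pool.Agent.H297R2.ThmJs

/-!
# The second row of a counterexample lies in a group whose rank is at most the square of the rank

Let `Γ` be a group of positive rational numbers of rank `m`. We consider all counterexamples to the
four exponentials conjecture for rational numbers with one row (or one column) in `Γ`: singular
`2 × 2` matrices of logarithms of positive rational numbers with `ℚ`-linearly independent rows and
`ℚ`-linearly independent columns, such that the numbers of one row are in `Γ`; the other row is
ARBITRARY. We show that all of them have all their entries in one group `Γ'` which contains `Γ` and has rank at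
most `m ^ 2`. In particular at most `m ^ 2` primes occur in such matrices: if `Γ` is generated by `m`
given rational numbers, then for all other primes `p`, all positive rational numbers `q` and all
`a, b` in `Γ` the number `log p log a - log q log b` is not zero, unless the rows or the columns are
dependent; in another form, if `p`, `q` are multiplicatively independent and `p ^ t`, `q ^ t` are in `Γ`,
`t` real, then `t` is rational.

We work additively, with rational spaces of real numbers in place of groups of rational numbers.

Proof. Let `e_1, …, e_m` be a basis of the space `V` of the logarithms of `Γ`. If `x v' = y v` with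
`v = ∑ a_i e_i`, `v' = ∑ c_i e_i` in `V`, independent, then `∑ e_i (c_i x - a_i y) = 0`. By the hyperplane
case of the linear subgroup theorem of Waldschmidt and Roy (`Pool.Agent.W254.HP`, with algebraic
coefficients) there are at most `m (m - 1)` independent relations `∑ e_i l_i = 0` between the `e_i` with
coefficients `l_i` which are linear forms in logarithms, and `m (m - 1) / 2` of them are the alternating
relations `e_i e_j - e_j e_i = 0`. So modulo the relations with all `l_i` in `V` there are at most
`m (m - 1) / 2` two-term relations `c x - a y`, and each adds at most the two numbers `x`, `y`.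
-/

set_option autoImplicit false

namespace Pool.Agent.Results.MP_bbc1fa_nt.SquareOfTheRank

open Module

/-- The rational space generated by the logarithms of the positive rational numbers. -/
noncomputable def LogQ : Submodule ℚ ℝ := Submodule.span ℚ {x | ∃ q : ℚ, 0 < q ∧ x = Real.log q}

/-- A counterexample to the four exponentials conjecture for rational numbers (after multiplication by an
integer): a singular matrix with entries in `LogQ` with `ℚ`-linearly independent rows and `ℚ`-linearly
independent columns. -/
def IsCounterexample (M : Matrix (Fin 2) (Fin 2) ℝ) : Prop :=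
  (∀ i j, M i j ∈ LogQ) ∧ LinearIndependent ℚ (fun i : Fin 2 => fun j : Fin 2 => M i j) ∧
    LinearIndependent ℚ (fun j : Fin 2 => fun i : Fin 2 => M i j) ∧ M.det = 0

/-- One row or one column of `M` has both its entries in `V`. -/
def HasLineIn (V : Submodule ℚ ℝ) (M : Matrix (Fin 2) (Fin 2) ℝ) : Prop :=
  (∃ i, ∀ j, M i j ∈ V) ∨ (∃ j, ∀ i, M i j ∈ V)

/-- distinct primes have independent logarithms -/
theorem primes_indep {ι : Type} (p : ι → ℕ) (hp : ∀ i, (p i).Prime) (hinj : Function.Injective p) :
    LinearIndependent ℚ (fun i => Real.log (p i)) := by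
  rw [linearIndependent_iff_finset_linearIndependent]
  intro s
  have h1 := Pool.Agent.H297R2.linearIndependent_log_prime (ι := s) (fun i => p i)
    (fun i => hp i) (fun a b h => Subtype.ext (hinj h))
  rw [Fintype.linearIndependent_iff] at h1 ⊢
  intro g hg
  refine h1 g ?_
  have h2 : ((∑ i : s, g i • Real.log (p i) : ℝ) : ℂ) = 0 := by
    have h3 : (∑ i : s, g i • Real.log (p i) : ℝ) = 0 := hg
    rw [h3, Complex.ofReal_zero]
  rw [← h2, Complex.ofReal_sum]
  refine Finset.sum_congr rfl fun i _ => ?_
  rw [Rat.smul_def, Rat.smul_def, Complex.ofReal_mul, Complex.ofReal_ratCast]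

/-- **Main result.** Let `V` be a finite dimensional rational space of logarithms. All the entries of all
counterexamples with one row or one column in `V` lie in one space `W` of dimension at most
`(dim V) ^ 2`, and at most `(dim V) ^ 2` logarithms of primes occur among them. -/
theorem result (V : Submodule ℚ ℝ) [FiniteDimensional ℚ V] (hV : V ≤ LogQ) :
    (∃ W : Submodule ℚ ℝ, V ≤ W ∧ W ≤ LogQ ∧ FiniteDimensional ℚ W ∧ finrank ℚ W ≤ finrank ℚ V ^ 2 ∧
      ∀ M, IsCounterexample M → HasLineIn V M → ∀ i j, M i j ∈ W) ∧
    {p : ℕ | p.Prime ∧ ∃ M, IsCounterexample M ∧ HasLineIn V M ∧ ∃ i j, M i j = Real.log p}.Finite ∧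
    {p : ℕ | p.Prime ∧ ∃ M, IsCounterexample M ∧ HasLineIn V M ∧ ∃ i j, M i j = Real.log p}.ncard ≤
      finrank ℚ V ^ 2 := by
  obtain ⟨W, h1, h2, h3, h4, h5⟩ := Pool.Agent.V8H74.FE.hullQ V hV
  have h6 : ∀ M, IsCounterexample M → HasLineIn V M → ∀ i j, M i j ∈ W :=
    fun M hM hl => h5 M hM.1 hM.2.1 hM.2.2.1 hM.2.2.2 hl
  refine ⟨⟨W, h1, h2, h3, h4, h6⟩, ?_⟩
  set S : Set ℕ :=
    {p : ℕ | p.Prime ∧ ∃ M, IsCounterexample M ∧ HasLineIn V M ∧ ∃ i j, M i j = Real.log p} with hS
  have h7 : ∀ p ∈ S, Real.log (p : ℝ) ∈ W := by
    rintro p ⟨-, M, hM, hl, i, j, hij⟩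
    rw [← hij]
    exact h6 M hM hl i j
  have h8 : LinearIndependent ℚ (fun p : S => (⟨Real.log ((p : ℕ) : ℝ), h7 p p.2⟩ : W)) := by
    apply LinearIndependent.of_comp W.subtype
    exact primes_indep (fun p : S => (p : ℕ)) (fun p => p.2.1) Subtype.val_injective
  have h9 : Finite S := h8.finite
  have := Fintype.ofFinite S
  refine ⟨Set.toFinite S, ?_⟩
  have h10 := h8.fintype_card_le_finrank
  rw [← _root_.Nat.card_coe_set_eq, Nat.card_eq_fintype_card]
  exact h10.trans h4

end Pool.Agent.Results.MP_bbc1fa_nt.SquareOfTheRank
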